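import Pool.Agent.W331.DT.AFinal
import Pool.Agent.W331.DT.BFinal

/-!
# The dynamical Tits alternative fails for `R_A`, `nV` and `Aut(V_{d,k})`

Full negative answer to question Q1 of problem MP_e5892f_al.
The definitions are in `Pool/Agent/W331/DT/Defs.lean`.
-/

set_option autoImplicit false

namespace Pool.Agent.Results.MP_e5892f_al.DynTitsFails

open Pool.Agent.W331.DT

/-- For every finite alphabet `A` with at least two letters, the group of homeomorphisms of `A^ℕ`
computed by finite-state asynchronous transducers, for every `n ≥ 2` the Brin-Thompson group `nV`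
acting on `C^n`, and for all `d ≥ 2`, `k ≥ 1` the group `Aut(V_{d,k})` acting on the Cantor space
`{1,...,k} × {0,...,d-1}^ℕ` fail the dynamical Tits alternative. -/
theorem result :
    (∀ (A : Type) [Fintype A] [TopologicalSpace A] [DiscreteTopology A],
      2 ≤ Fintype.card A → ¬ SatisfiesDTA (rationalHomeos A)) ∧
    (∀ n : ℕ, 2 ≤ n → ¬ SatisfiesDTA (brinThompson n)) ∧
    (∀ d k : ℕ, 2 ≤ d → 1 ≤ k → ¬ SatisfiesDTA (autHigmanThompson d k)) := by
  refine ⟨?_, fun n hn => fails_A hn, fun d k hd hk => fails_aut d k hd hk⟩
  intro A _ _ _ hA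
  have : Nontrivial A := Fintype.one_lt_card_iff_nontrivial.1 (by omega)
  exact fails_rational A

end Pool.Agent.Results.MP_e5892f_al.DynTitsFails
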